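import Pool.Agent.Results.MP_1ad228_nt.RandomOrbits
import Pool.Agent.L7h22.ZC.Prin
import Pool.Agent.N918.EQ.Base
import Pool.Agent.N24.RW.All
import Pool.Agent.N53.CF.All

/-!
# Zero-cycles of degree one on twists of cyclic coverings, for polynomial values along equidistributed
# sequences, generalised polynomials at integers and primes, random orbits and convergents

Let `b y ^ 2 = ∏ k, G k (z, w)` be a hyperelliptic curve `D` over `ℚ`, where the `G k` are the
homogenisations of polynomials `g k` with integral coefficients, of even degrees, pairwise coprime, and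
let `h` be a polynomial with integral coefficients, coprime to the `g k`, `H` its homogenisation
(`Admissible`). For an integer `a` and an even `m ∣ deg h` let

  `C a : b y ^ 2 = ∏ k, G k (z, w)`, `a x ^ m = H (z, w)`.

The property `Good` of `a` (from the starting result `RandomOrbits`) says that for all even `m ∣ deg h`, and
the quaternion algebras `(G k, e)` of the Brauer group of `C a`:
* every orthogonal adelic zero-cycle of odd degree on `C a` has the values of a persistent class;
* if the zeros of `h` are one or two rational numbers, the existence of an orthogonal adelic zero-cycle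
  of odd degree implies the existence of a rational point;
* if there are no persistent classes, no adelic zero-cycle of odd degree is orthogonal.

So in the last two cases the Brauer-Manin obstruction is the only one to the existence of zero-cycles of
degree one on `C a`, and even to the existence of rational points.

Here `a = F(λ(c))`, where `F` is any polynomial with integral coefficients which has a rational zero of
multiplicity one (`SimpleZero`; it can have any other factors with any multiplicities) and `λ ≠ 0` is a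
linear form with integral coefficients.

**Theorem.**

(1) Let `c n`, `n = 0, 1, ...`, be ANY sequence of integral vectors and let `S k`, `k = 0, 1, ...`, be ANY finite
sets of times (intervals, short intervals, the primes of an interval, ...) such that for all `q` prime to some
number every class modulo `q` contains at most the proportion `q ^ (-r) + o(1)` of the `c n`, `n` in `S k`
(`Equi`, `r` the number of the coordinates). Then for ALL `(b, g, h)`, `F`, `λ` the proportion of the `n` in `S k`
for which `a = F(λ(c n))` is not `Good` tends to zero (`UsuallyGood`).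

(2) This conclusion holds for generalised polynomials `c n = (⌊∑_{t ∈ T_i} x_{i,t} n ^ t⌋)_i` with different
positive nonintegral leading exponents and positive leading coefficients, along the integers and along the
primes of `(k, 2 k]`.

(3) Let `s_0, …, s_M` be matrices in `SL_r(ℤ)`, `r ≥ 2`, which generate `SL_r(ℤ/q)` for all `q` prime to some `q₀`
(for example generators of a thin Zariski dense subgroup), and `c_t = s_(w (t-1)) ⋯ s_(w 0) v`. For almost every
word `w` there is ONE set `E` of times of density zero such that for ALL `v ≠ 0`, `F`, `λ`, `(b, g, h)` the number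
`a = F(λ(c_t))` is `Good` for all but finitely many `t` outside `E`.

(4) For every continued fraction normal number `α` with the convergents `p_n / q_n` there is ONE set `E` of
density zero such that for ALL `F`, ALL integers `u`, `v`, not both zero, and ALL `(b, g, h)` the number
`a = F(u p_n + v q_n)` is `Good` for all but finitely many `n` outside `E`.

The starting results `RandomOrbits` and `ConvergentsOfNormalNumbers` are (3) and (4) for `F = X`, and
`ThinSequences` is about products `a = u ∏ z_l(t) ^ e_l` with some `e_l = 1` and sequences `z_l` which are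
uniformly distributed along sets `S₁ N`, `S₂ N` contained in `(N, 2 N]`.

(5) The property `Good` is not empty: on the curves `y² = (z² + 51) (z² - 1)`,
`a x ^ m = (z² + 1) (z² - 17) (z² + 17)` there are points over `ℝ` and over all `ℚ_p`, but no orthogonal adelic
zero-cycle of odd degree (`m = 2, 6`) if `a` is `Good` for them.

Proof. The local analysis (helper925, starting library) at a prime which divides `a` exactly once and has
a given Frobenius element. The set of the `c` such that no large prime with the given Frobenius element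
divides `F(λ(c))` exactly once is pronull (`Pool.Agent.L7h22.ZC`). A pronull set is rarely visited by
equidistributed sequences (`Pool.Agent.N918.EQ`), by generalised polynomials (`Pool.Agent.N666.TM`), by random
orbits (`Pool.Agent.N24.RW`) and by the convergents of normal numbers (`Pool.Agent.N53.CF`); there are only
countably many conditions.
-/

set_option autoImplicit false

namespace Pool.Agent.Results.MP_1ad228_nt.EquidistributedSequences

open Polynomial MeasureTheory Filter Topology Pool.Agent.R925.FD Pool.Agent.R925.ZC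
open Pool.Agent.N24.RW (ProNull Walk orb words)
open Pool.Agent.N676.OR (DensityZero countable_poly)
open Pool.Agent.N918.EQ (Equi RareIn)
open Pool.Agent.N53.CF (CFNormal cvg)
open Pool.Agent.W811.Stu (dig)
open Pool.Agent.L7h22.ZC (SimpleZero pro_poly one_set)
open Pool.Agent.Results.MP_1ad228_nt.ZeroCyclesOfTwistedCoverings (Admissible OddDegree)
open Pool.Agent.Results.MP_1ad228_nt.RandomOrbits (Good good_of)

/-- For all families `(b, g, h)`, all `F` with a simple rational zero and all `λ ≠ 0` the proportion of the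
times `n` in `S k` for which `a = F(λ(c n))` is not `Good` tends to zero. -/
def UsuallyGood {ι : Type} [Fintype ι] (S : ℕ → Finset ℕ) (c : ℕ → ι → ℤ) : Prop :=
  ∀ F : ℤ[X], SimpleZero F → ∀ lam : ι → ℤ, lam ≠ 0 →
    ∀ (r : ℕ) (b : ℤ) (g : Fin r → ℤ[X]) (h : ℤ[X]), Admissible b g h →
      ∀ ε : ℝ, 0 < ε → ∃ k₀ : ℕ, ∀ k : ℕ, k₀ ≤ k →
        (({n : ℕ | n ∈ S k ∧ ¬ Good b g h (F.eval (∑ i, lam i * c n i))}.ncard : ℕ) : ℝ) ≤
          ε * (S k).card

/-- The data: a family `(b, g, h)`, the polynomial `F` and the linear form. -/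
abbrev Data (ι : Type) : Type := (Σ r : ℕ, ℤ × (Fin r → ℤ[X]) × ℤ[X]) × ℤ[X] × (ι → ℤ)

/-- The conditions on the data. -/
def Valid {ι : Type} (d : Data ι) : Prop :=
  Admissible d.1.2.1 d.1.2.2.1 d.1.2.2.2 ∧ SimpleZero d.2.1 ∧ d.2.2 ≠ 0

/-- The exceptional vectors. -/
def Bad {ι : Type} [Fintype ι] (d : Data ι) : Set (ι → ℤ) :=
  {c : ι → ℤ | ¬ Good d.1.2.1 d.1.2.2.1 d.1.2.2.2 (d.2.1.eval (∑ i, d.2.2 i * c i))}

theorem pro {ι : Type} [Fintype ι] (d : Data ι) (hd : Valid d) : ProNull (Bad d) :=
  pro_poly (good_of hd.1) hd.2.1 hd.2.2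

theorem usually_of {ι : Type} [Fintype ι] {S : ℕ → Finset ℕ} {c : ℕ → ι → ℤ}
    (h : ∀ B : Set (ι → ℤ), ProNull B → RareIn S c B) : UsuallyGood S c := by
  intro F hF lam hlam r b g hh hA
  have h1 : RareIn S c {x : ι → ℤ | ¬ Good b g hh (F.eval (∑ i, lam i * x i))} :=
    h _ (pro_poly (good := Good b g hh) (good_of hA) hF hlam)
  intro ε hε
  obtain ⟨k₀, hk⟩ := h1 ε hε
  exact ⟨k₀, hk⟩

theorem result :
    (∀ (ι : Type) [Fintype ι] [DecidableEq ι],
      -- (1)
      (∀ (S : ℕ → Finset ℕ) (c : ℕ → ι → ℤ), Equi S c → UsuallyGood S c) ∧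
      -- (2)
      (Nonempty ι → ∀ (T : ι → Finset ℝ) (x : ι → ℝ → ℝ) (e : ι → ℝ),
        (∀ i, e i ∈ T i ∧ (∀ t ∈ T i, t ≤ e i) ∧ 0 < e i ∧ (∀ m : ℕ, e i ≠ m) ∧ 0 < x i (e i)) →
        Function.Injective e →
        UsuallyGood (fun k => Finset.Ioc k (2 * k)) (fun n i => ⌊∑ t ∈ T i, x i t * (n : ℝ) ^ t⌋) ∧
        UsuallyGood (fun k => (Finset.Ioc k (2 * k)).filter Nat.Prime)
          (fun n i => ⌊∑ t ∈ T i, x i t * (n : ℝ) ^ t⌋)) ∧
      -- (3)
      (2 ≤ Fintype.card ι → ∀ W : Walk ι, ∀ᵐ w ∂(words W.m), ∃ E : Set ℕ, DensityZero E ∧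
        ∀ v : ι → ℤ, v ≠ 0 → ∀ F : ℤ[X], SimpleZero F → ∀ lam : ι → ℤ, lam ≠ 0 →
          ∀ (r : ℕ) (b : ℤ) (g : Fin r → ℤ[X]) (h : ℤ[X]), Admissible b g h →
            {t : ℕ | t ∉ E ∧ ¬ Good b g h (F.eval (∑ i, lam i * orb W v w t i))}.Finite)) ∧
    -- (4)
    (∀ᵐ α ∂(volume.restrict (Set.Ioo (0 : ℝ) 1)), CFNormal α) ∧
    (∀ α : ℝ, CFNormal α → ∃ E : Set ℕ, DensityZero E ∧
      ∀ F : ℤ[X], SimpleZero F → ∀ u v : ℤ, u ≠ 0 ∨ v ≠ 0 →
        ∀ (r : ℕ) (b : ℤ) (g : Fin r → ℤ[X]) (h : ℤ[X]), Admissible b g h →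
          {n : ℕ | n ∉ E ∧
            ¬ Good b g h (F.eval (u * cvg (dig α) n 0 + v * cvg (dig α) n 1))}.Finite) ∧
    -- (5)
    (Admissible 1 exg exh ∧ ∀ a : ℤ, Good 1 exg exh a → ∀ m : ℕ, 0 < m → Even m →
      m ∣ exh.natDegree → (¬ ∃ Z : AdelicCycle m 1 a exg exh, OddDegree Z ∧ Z.Orthogonal) ∧
        Nonempty (Point m 1 a exg exh ℝ) ∧
        ∀ (p : ℕ) [Fact p.Prime], Nonempty (Point m 1 a exg exh ℚ_[p])) := by
  classical
  have c1 : Countable ℤ[X] := countable_poly
  refine ⟨fun ι _ _ => ⟨fun S c hc => usually_of fun B hB => Pool.Agent.N918.EQ.rareIn_of_equi hc hB,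
    fun hne T x e he hinj => ?_, fun hι W => ?_⟩, Pool.Agent.N53.CF.t_TYP, fun α hα => ?_,
    RandomOrbits.adm_ex, fun a ha m hm0 hm hmh => ⟨?_, RandomOrbits.result.2.2 m a hm0.ne'⟩⟩
  · obtain ⟨⟨κ, hκ, h1⟩, ⟨κ', hκ', h2⟩⟩ := Pool.Agent.N666.TM.fl_well he hinj
    exact ⟨usually_of fun B hB => Pool.Agent.N918.EQ.rareIn_of_well hκ h1 hB,
      usually_of fun B hB => Pool.Agent.N918.EQ.rareIn_of_well hκ' h2 hB⟩
  · have h1 : ∀ᵐ w ∂(words W.m), ∀ x : {v : ι → ℤ // v ≠ 0} × {d : Data ι // Valid d},
        DensityZero {n : ℕ | orb W x.1.1 w n ∈ Bad x.2.1} := by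
      rw [ae_all_iff]
      intro x
      exact Pool.Agent.N24.RW.main ι hι W x.1.1 x.1.2 (Bad x.2.1) (pro x.2.1 x.2.2)
    filter_upwards [h1] with w hw
    obtain ⟨E, hE, hall⟩ := one_set (𝔄 := {v : ι → ℤ // v ≠ 0} × {d : Data ι // Valid d})
      (fun x => {n : ℕ | orb W x.1.1 w n ∈ Bad x.2.1}) hw
    refine ⟨E, hE, fun v hv F hF lam hlam r b g h hA => ?_⟩
    exact hall (⟨v, hv⟩, ⟨(⟨r, b, g, h⟩, F, lam), hA, hF, hlam⟩)
  · obtain ⟨E, hE, hall⟩ := one_set (𝔄 := {d : Data (Fin 2) // Valid d})
      (fun d => {n : ℕ | cvg (dig α) n ∈ Bad d.1})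
      fun d => Pool.Agent.N53.CF.main (Bad d.1) (pro d.1 d.2) α hα
    refine ⟨E, hE, fun F hF u v huv r b g h hA => ?_⟩
    have hlam : (![u, v] : Fin 2 → ℤ) ≠ 0 := by
      intro h0
      have h2 := congrFun h0 0
      have h3 := congrFun h0 1
      simp at h2 h3
      rcases huv with h4 | h4
      · exact h4 h2
      · exact h4 h3
    refine (hall ⟨(⟨r, b, g, h⟩, F, ![u, v]), hA, hF, hlam⟩).subset ?_
    rintro n ⟨hn, hg⟩
    refine ⟨hn, ?_⟩
    show ¬ Good b g h (F.eval (∑ i, (![u, v] : Fin 2 → ℤ) i * cvg (dig α) n i))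
    rw [Fin.sum_univ_two]
    simpa using hg
  · exact ha.2.2 (fun δ hδ => ex_not_zpers δ (hδ.1 0) odd_one) m hm0 hm hmh

end Pool.Agent.Results.MP_1ad228_nt.EquidistributedSequences
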