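import Pool.Agent.Results.MP_1ad228_nt.RandomOrbits
import Pool.Agent.L7h22.ZC.Prin
import Pool.Agent.N24.KM.All

/-!
# Zero-cycles of degree one on twists of cyclic coverings along metric sequences

Let `b y ^ 2 = ∏ k, G k (z, w)` be a hyperelliptic curve `D` over `ℚ`, where the `G k` are the
homogenisations of polynomials `g k` with integral coefficients, of even degrees, pairwise coprime, and
let `h` be a polynomial with integral coefficients, coprime to the `g k`, `H` its homogenisation
(`Admissible`). For an integer `a` and an even `m ∣ deg h` let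

  `C a : b y ^ 2 = ∏ k, G k (z, w)`, `a x ^ m = H (z, w)`.

The property `Good` of `a` (from the starting result `RandomOrbits`) says that for all even `m ∣ deg h`, and
the quaternion algebras `(G k, e)` of the Brauer group of `C a`:
* every orthogonal adelic zero-cycle of odd degree on `C a` has the values of a persistent class;
* if the zeros of `h` are one or two rational numbers, the existence of an orthogonal adelic zero-cycle
  of odd degree implies the existence of a rational point;
* if there are no persistent classes, no adelic zero-cycle of odd degree is orthogonal.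

So in the last two cases the Brauer-Manin obstruction is the only one to the existence of zero-cycles of
degree one on `C a`, and even to the existence of rational points.

The starting results treat 100% of the squarefree `a`, and `a = λ(c)`, `λ` a linear form, for the vectors
`c` of random orbits of groups of matrices. Here `a = F(λ(c))`, where `F` is any polynomial with integral
coefficients which has a rational zero of multiplicity one (`SimpleZero`; it can have any other factors
with any multiplicities, so that `a` need not be close to a squarefree number), and the sequences `c_0, c_1, …`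
of integral vectors come from ARBITRARY sequences of numbers by generic multipliers.

**Theorem.** (1) For every family `(b, g, h)`, every such `F` and every `λ ≠ 0` the set of the vectors `c`
for which `a = F(λ(c))` is not `Good` is pronull: its closure in the product of the `ℤ_p^r`, `p` not
dividing `M`, has Haar measure zero, for all `M`.

(2) In each of the following cases there is ONE set `E` of indices of density zero such that for ALL
families `(b, g, h)`, ALL `F` and ALL linear forms `λ ≠ 0` with integral coefficients `a = F(λ(c_n))` is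
`Good` for all but finitely many `n` outside `E` (`AllGood`).

* `c_{n,i} = ⌊f_{i,n}(α_i)⌋` for almost all `α` with `a_i ≤ α_i ≤ b_i`, where the functions `f_{i,n}` satisfy
  the hypothesis of Koksma's theorem on `[a_i, b_i]`;
* `c_{n,i} = ⌊a_{i,n} α_i⌋` for almost all `α ∈ ℝʳ`, where the numbers `a_{i,n}`, `n = 0, 1, …`, have mutual
  distances at least `δ > 0` (`n!`, `2^n`, any enumeration of any infinite set of integers);
* `c_{n,i} = ⌊ξ_i α_i^(k_n)⌋` for almost all `α` with `α_i > 1`, where the `k_n` are different natural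
  numbers and `ξ_i ≠ 0`.

For all but finitely many `n` outside `E` no adelic zero-cycle of odd degree on the curves
`y² = (z² + 51) (z² - 1)`, `a x ^ m = (z² + 1) (z² - 17) (z² + 17)`, `m = 2, 6`, is orthogonal, although
these curves have points over `ℝ` and over all `ℚ_p`, `a = F(λ(c_n))`.

Proof. The local analysis (helper925, starting library) at a prime which divides `a` exactly once and has
a given Frobenius element. Let `F = (s X - r) G`, `G(r/s) ≠ 0`. The set of the `c` such that no large prime
with the given Frobenius element divides `s λ(c) - r` exactly once is pronull (`Pool.Agent.L7h22.ZC`, after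
`Pool.Agent.N676.OR`), and such a prime divides `F(λ(c))` exactly once, as it does not divide
`s^deg G G(r/s)`. Almost all metric sequences visit a pronull set only for indices of density zero
(`Pool.Agent.N24.KM`, helper24 and coworkers); there are only countably many conditions.
-/

set_option autoImplicit false

namespace Pool.Agent.Results.MP_1ad228_nt.MetricSequences

open Polynomial MeasureTheory Pool.Agent.R925.FD Pool.Agent.R925.ZC
open Pool.Agent.N24.RW (ProNull)
open Pool.Agent.N24.KM (Koksma)
open Pool.Agent.N676.OR (DensityZero countable_poly)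
open Pool.Agent.L7h22.ZC (SimpleZero pro_poly one_set)
open Pool.Agent.Results.MP_1ad228_nt.ZeroCyclesOfTwistedCoverings (Admissible OddDegree)
open Pool.Agent.Results.MP_1ad228_nt.RandomOrbits (Good good_of)

/-- Outside one set `E` of indices of density zero and finitely many further indices, the twists by
`a = F(λ(c_n))` are `Good`, for all `F` with a simple rational zero, all `λ ≠ 0` and all families, and no
adelic zero-cycle of odd degree on the curves of the example is orthogonal. -/
def AllGood {ι : Type} [Fintype ι] (c : ℕ → ι → ℤ) : Prop :=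
  ∃ E : Set ℕ, DensityZero E ∧
    ∀ F : ℤ[X], SimpleZero F → ∀ lam : ι → ℤ, lam ≠ 0 →
      (∀ (r : ℕ) (b : ℤ) (g : Fin r → ℤ[X]) (h : ℤ[X]), Admissible b g h →
        {n : ℕ | n ∉ E ∧ ¬ Good b g h (F.eval (∑ i, lam i * c n i))}.Finite) ∧
      {n : ℕ | n ∉ E ∧ ∃ m : ℕ, 0 < m ∧ Even m ∧ m ∣ exh.natDegree ∧
        ∃ Z : AdelicCycle m 1 (F.eval (∑ i, lam i * c n i)) exg exh,
          OddDegree Z ∧ Z.Orthogonal}.Finite

/-- The data: a family `(b, g, h)`, the polynomial `F` and the linear form. -/
abbrev Data (ι : Type) : Type := (Σ r : ℕ, ℤ × (Fin r → ℤ[X]) × ℤ[X]) × ℤ[X] × (ι → ℤ)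

/-- The conditions on the data. -/
def Valid {ι : Type} (d : Data ι) : Prop :=
  Admissible d.1.2.1 d.1.2.2.1 d.1.2.2.2 ∧ SimpleZero d.2.1 ∧ d.2.2 ≠ 0

/-- The exceptional vectors. -/
def Bad {ι : Type} [Fintype ι] (d : Data ι) : Set (ι → ℤ) :=
  {c : ι → ℤ | ¬ Good d.1.2.1 d.1.2.2.1 d.1.2.2.2 (d.2.1.eval (∑ i, d.2.2 i * c i))}

theorem pro {ι : Type} [Fintype ι] (d : Data ι) (hd : Valid d) : ProNull (Bad d) :=
  pro_poly (good_of hd.1) hd.2.1 hd.2.2

theorem all_of_data {ι : Type} [Fintype ι] {c : ℕ → ι → ℤ}
    (h : ∀ d : Data ι, Valid d → DensityZero {n | c n ∈ Bad d}) : AllGood c := by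
  classical
  have c1 : Countable ℤ[X] := countable_poly
  obtain ⟨E, hE, hall⟩ := one_set (𝔄 := {d : Data ι // Valid d}) (fun d => {n | c n ∈ Bad d.1})
    fun d => h d.1 d.2
  have hgen : ∀ F : ℤ[X], SimpleZero F → ∀ lam : ι → ℤ, lam ≠ 0 →
      ∀ (r : ℕ) (b : ℤ) (g : Fin r → ℤ[X]) (h : ℤ[X]), Admissible b g h →
        {n : ℕ | n ∉ E ∧ ¬ Good b g h (F.eval (∑ i, lam i * c n i))}.Finite := by
    intro F hF lam hlam r b g h hA
    exact hall ⟨(⟨r, b, g, h⟩, F, lam), hA, hF, hlam⟩
  refine ⟨E, hE, fun F hF lam hlam => ⟨hgen F hF lam hlam, ?_⟩⟩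
  refine (hgen F hF lam hlam 2 1 exg exh RandomOrbits.adm_ex).subset ?_
  rintro n ⟨hn, m, hm0, hm, hmh, hZ⟩
  refine ⟨hn, fun hgood => ?_⟩
  exact hgood.2.2 (fun δ hδ => ex_not_zpers δ (hδ.1 0) odd_one) m hm0 hm hmh hZ

theorem result :
    (∀ (r : ℕ) (b : ℤ) (g : Fin r → ℤ[X]) (h : ℤ[X]), Admissible b g h →
      ∀ (ι : Type) [Fintype ι] (F : ℤ[X]), SimpleZero F → ∀ lam : ι → ℤ, lam ≠ 0 →
        ProNull {c : ι → ℤ | ¬ Good b g h (F.eval (∑ i, lam i * c i))}) ∧
    (∀ (ι : Type) [Fintype ι],
      (∀ (a b : ι → ℝ) (f : ι → ℕ → ℝ → ℝ), (∀ i, a i < b i) → (∀ i, Koksma (a i) (b i) (f i)) →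
        ∀ᵐ α : ι → ℝ, (∀ i, α i ∈ Set.Icc (a i) (b i)) → AllGood fun n i => ⌊f i n (α i)⌋) ∧
      (∀ (a : ι → ℕ → ℝ) (δ : ℝ), 0 < δ → (∀ i m n, m ≠ n → δ ≤ |a i m - a i n|) →
        ∀ᵐ α : ι → ℝ, AllGood fun n i => ⌊a i n * α i⌋) ∧
      (∀ (k : ℕ → ℕ) (ξ : ι → ℝ), Function.Injective k → (∀ i, ξ i ≠ 0) →
        ∀ᵐ α : ι → ℝ, (∀ i, 1 < α i) → AllGood fun n i => ⌊ξ i * α i ^ k n⌋)) ∧
    (∀ (m : ℕ) (a : ℤ), m ≠ 0 → Nonempty (Point m 1 a exg exh ℝ) ∧
      ∀ (p : ℕ) [Fact p.Prime], Nonempty (Point m 1 a exg exh ℚ_[p])) := by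
  have c1 : Countable ℤ[X] := countable_poly
  refine ⟨?_, ?_, RandomOrbits.result.2.2⟩
  · intro r b g h hA ι _ F hF lam hlam
    exact pro_poly (good_of hA) hF hlam
  · intro ι _
    refine ⟨fun a b f hab hf => ?_, fun a δ hδ ha => ?_, fun k ξ hk hξ => ?_⟩
    · have h : ∀ d : Data ι, ∀ᵐ α : ι → ℝ, Valid d → (∀ i, α i ∈ Set.Icc (a i) (b i)) →
          DensityZero {n | (fun i => ⌊f i n (α i)⌋) ∈ Bad d} := by
        intro d
        rw [ae_all_iff (ι := Valid d)]
        intro hd
        exact (Pool.Agent.N24.KM.main ι _ (pro d hd)).1 a b f hab hf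
      filter_upwards [ae_all_iff.2 h] with α hα h1
      exact all_of_data fun d hd => hα d hd h1
    · have h : ∀ d : Data ι, ∀ᵐ α : ι → ℝ, Valid d →
          DensityZero {n | (fun i => ⌊a i n * α i⌋) ∈ Bad d} := by
        intro d
        rw [ae_all_iff (ι := Valid d)]
        intro hd
        exact (Pool.Agent.N24.KM.main ι _ (pro d hd)).2.1 a δ hδ ha
      filter_upwards [ae_all_iff.2 h] with α hα
      exact all_of_data fun d hd => hα d hd
    · have h : ∀ d : Data ι, ∀ᵐ α : ι → ℝ, Valid d → (∀ i, 1 < α i) →
          DensityZero {n | (fun i => ⌊ξ i * α i ^ k n⌋) ∈ Bad d} := by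
        intro d
        rw [ae_all_iff (ι := Valid d)]
        intro hd
        exact (Pool.Agent.N24.KM.main ι _ (pro d hd)).2.2 k ξ hk hξ
      filter_upwards [ae_all_iff.2 h] with α hα h1
      exact all_of_data fun d hd => hα d hd h1

end Pool.Agent.Results.MP_1ad228_nt.MetricSequences
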