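import Pool.Agent.Results.MP_1ad228_nt.RandomOrbits
import Pool.Agent.L7h22.ZC.Prin
import Pool.Agent.N676.RV.Pro

/-!
# Zero-cycles of degree one on twists of cyclic coverings, for thin families of vectors of residues

Let `b y ^ 2 = ∏ k, G k (z, w)` be a hyperelliptic curve `D` over `ℚ`, where the `G k` are the
homogenisations of polynomials `g k` with integral coefficients, of even degrees, pairwise coprime, and
let `h` be a polynomial with integral coefficients, coprime to the `g k`, `H` its homogenisation
(`Admissible`). For an integer `a` and an even `m ∣ deg h` let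

  `C a : b y ^ 2 = ∏ k, G k (z, w)`, `a x ^ m = H (z, w)`.

The property `Good` of `a` (from the starting result `RandomOrbits`) says that for all even `m ∣ deg h`, and
the quaternion algebras `(G k, e)` of the Brauer group of `C a`:
* every orthogonal adelic zero-cycle of odd degree on `C a` has the values of a persistent class;
* if the zeros of `h` are one or two rational numbers, the existence of an orthogonal adelic zero-cycle
  of odd degree implies the existence of a rational point;
* if there are no persistent classes, no adelic zero-cycle of odd degree is orthogonal.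

So in the last two cases the Brauer-Manin obstruction is the only one to the existence of zero-cycles of
degree one on `C a`, and even to the existence of rational points.

Here `a = F(λ(c))`, where `F` is any polynomial with integral coefficients which has a rational zero of
multiplicity one (`SimpleZero`) and `λ ≠ 0` is a linear form with integral coefficients.

**The vectors** are `c = c₀ + y_i`, `i ∈ s`, where `c₀` is any integral vector and the `y_i` are the least
residues of `|s|` vectors of residues modulo a number `q` whose Fourier coefficients at the nonzero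
frequencies are at most `|s| / (Z (42 + 3 log q) ^ r)`, `r` the number of the coordinates, `Z ≤ q` (`Small`).
There are very thin families of this kind (`Examples`, from the starting library): products of
cosets of subgroups of order `≥ 5 p^(3/8) K^3` of the multiplicative group modulo a prime `p`, products of
sets of quotients `j / r` modulo `p`, `r ≤ R` prime, `0 ≤ j < R ^ 2`, `R` a power of `log p` (so these families have
only `(log p) ^ O(1)` members, while `p` may be any large prime), products of sets of sums
`a b + g(a) + k(b)`, and polynomial curves `(f_j(n))_j` modulo `p`, `n < x`, `x` about `p ^ (1/d)`, `d` the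
smallest of the different degrees.

**Theorem.** (1) For every family `(b, g, h)`, every such `F`, every `λ ≠ 0` and every `ε > 0` there is `Z₀` such
that for all families of vectors with `Z ≥ Z₀` and all `c₀`, for all but `ε |s|` of the `i ∈ s`, `a = F(λ(c₀ + y_i))`
is `Good` (`AlmostAll`).

(2) For each sequence of families of vectors with `Z k → ∞` there are exceptional sets `E k` of members of
the families, of proportions tending to zero, such that for ALL families `(b, g, h)`, ALL `F` and ALL
linear forms `λ ≠ 0`, for all large `k` and all `i ∈ s k` outside `E k`, the number `a = F(λ(c₀ + y_i))` is `Good`; and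
no adelic zero-cycle of odd degree on the curves `y² = (z² + 51) (z² - 1)`,
`a x ^ m = (z² + 1) (z² - 17) (z² + 17)`, `m = 2, 6`, is orthogonal, although these curves have points over
`ℝ` and over all `ℚ_p`.

(3) The examples of families of vectors.

Proof. The local analysis (helper925, starting library) at a prime which divides `a` exactly once and has
a given Frobenius element. The set of the `c` such that no large prime with the given Frobenius element
divides `F(λ(c))` exactly once is pronull (`Pool.Agent.L7h22.ZC`): its images modulo suitable integers `Q`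
have as few elements as one likes, compared to `Q ^ r`. The families of residues with small Fourier
coefficients are well distributed modulo `Q` (`Pool.Agent.N676.RV`, helper676 and helper384).
-/

set_option autoImplicit false

namespace Pool.Agent.Results.MP_1ad228_nt.ResidueVectors

open Polynomial Filter Topology Pool.Agent.R925.FD Pool.Agent.R925.ZC
open Pool.Agent.N24.RW (ProNull)
open Pool.Agent.N676.RV
open Pool.Agent.N676.OR (countable_poly)
open Pool.Agent.L7h22.ZC (SimpleZero pro_poly)
open Pool.Agent.Results.MP_1ad228_nt.ZeroCyclesOfTwistedCoverings (Admissible OddDegree)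
open Pool.Agent.Results.MP_1ad228_nt.RandomOrbits (Good good_of)

/-- The data: a family `(b, g, h)`, the polynomial `F` and the linear form. -/
abbrev Data (ι : Type) : Type := (Σ r : ℕ, ℤ × (Fin r → ℤ[X]) × ℤ[X]) × ℤ[X] × (ι → ℤ)

/-- The conditions on the data. -/
def Valid {ι : Type} (d : Data ι) : Prop :=
  Admissible d.1.2.1 d.1.2.2.1 d.1.2.2.2 ∧ SimpleZero d.2.1 ∧ d.2.2 ≠ 0

/-- The exceptional vectors. -/
def Bad {ι : Type} [Fintype ι] (d : Data ι) : Set (ι → ℤ) :=
  {c : ι → ℤ | ¬ Good d.1.2.1 d.1.2.2.1 d.1.2.2.2 (d.2.1.eval (∑ i, d.2.2 i * c i))}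

theorem pro {ι : Type} [Fintype ι] (d : Data ι) (hd : Valid d) : ProNull (Bad d) :=
  pro_poly (good_of hd.1) hd.2.1 hd.2.2

theorem result :
    (∀ (ι : Type) [Fintype ι] [DecidableEq ι],
      -- (1)
      (∀ (r : ℕ) (b : ℤ) (g : Fin r → ℤ[X]) (h : ℤ[X]), Admissible b g h →
        ∀ F : ℤ[X], SimpleZero F → ∀ lam : ι → ℤ, lam ≠ 0 →
          AlmostAll fun c : ι → ℤ => Good b g h (F.eval (∑ i, lam i * c i))) ∧
      -- (2)
      (∀ V : Fams ι, ∃ E : ∀ k, Set (V.τ k), V.Thin E ∧
        ∀ F : ℤ[X], SimpleZero F → ∀ lam : ι → ℤ, lam ≠ 0 →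
          (∀ (r : ℕ) (b : ℤ) (g : Fin r → ℤ[X]) (h : ℤ[X]), Admissible b g h →
            ∀ᶠ k in atTop, ∀ i ∈ V.s k, i ∉ E k → Good b g h (F.eval (∑ j, lam j * V.v k i j))) ∧
          ∀ᶠ k in atTop, ∀ i ∈ V.s k, i ∉ E k → ∀ m : ℕ, 0 < m → Even m → m ∣ exh.natDegree →
            ¬ ∃ Z : AdelicCycle m 1 (F.eval (∑ j, lam j * V.v k i j)) exg exh,
              OddDegree Z ∧ Z.Orthogonal)) ∧
    (∀ (m : ℕ) (a : ℤ), m ≠ 0 → Nonempty (Point m 1 a exg exh ℝ) ∧
      ∀ (p : ℕ) [Fact p.Prime], Nonempty (Point m 1 a exg exh ℚ_[p])) ∧
    -- (3)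
    Examples := by
  have c1 : Countable ℤ[X] := countable_poly
  refine ⟨fun ι _ _ => ⟨?_, ?_⟩, RandomOrbits.result.2.2, examples⟩
  · intro r b g h hA F hF lam hlam
    have h1 := pro_fam (pro_poly (good_of hA) hF hlam)
    intro ε hε
    obtain ⟨Z₀, hZ⟩ := h1 ε hε
    refine ⟨Z₀, fun τ q _ s y Z hZ' hsm c₀ => le_trans (le_of_eq ?_) (hZ τ q s y Z hZ' hsm c₀)⟩
    congr 2
    ext i
    simp only [Set.mem_ofPred_eq, not_not]
  · intro V
    obtain ⟨E, hE, h1⟩ := one_fam V (κ := {d : Data ι // Valid d}) (fun d => Bad d.1)
      fun d => pro d.1 d.2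
    have hgen : ∀ F : ℤ[X], SimpleZero F → ∀ lam : ι → ℤ, lam ≠ 0 →
        ∀ (r : ℕ) (b : ℤ) (g : Fin r → ℤ[X]) (h : ℤ[X]), Admissible b g h →
          ∀ᶠ k in atTop, ∀ i ∈ V.s k, i ∉ E k → Good b g h (F.eval (∑ j, lam j * V.v k i j)) := by
      intro F hF lam hlam r b g h hA
      filter_upwards [h1 ⟨(⟨r, b, g, h⟩, F, lam), hA, hF, hlam⟩] with k hk i hi hiE
      exact not_not.1 (hk i hi hiE)
    refine ⟨E, hE, fun F hF lam hlam => ⟨hgen F hF lam hlam, ?_⟩⟩
    filter_upwards [hgen F hF lam hlam 2 1 exg exh RandomOrbits.adm_ex] with k hk i hi hiE m hm0 hm hmh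
    exact (hk i hi hiE).2.2 (fun δ hδ => ex_not_zpers δ (hδ.1 0) odd_one) m hm0 hm hmh

end Pool.Agent.Results.MP_1ad228_nt.ResidueVectors
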