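import Pool.Agent.Results.MP_1ad228_nt.RandomOrbits
import Pool.Agent.R482.ST.Mills
import Mathlib.Algebra.Polynomial.Cardinal

/-!
# Zero-cycles of degree one on all twists of cyclic coverings by the integers near `α ^ (3 ^ n)`

Let `b y ^ 2 = ∏ k, G k (z, w)` be a hyperelliptic curve over `ℚ`, where the `G k` are the homogenisations of
polynomials `g k` with integral coefficients, of even degrees, pairwise coprime, and let `h` be a polynomial
with integral coefficients, coprime to the `g k`, `H` its homogenisation (`Admissible`). For an integer `a`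
and an even `m ∣ deg h` let

  `C a : b y ^ 2 = ∏ k, G k (z, w)`, `a x ^ m = H (z, w)`.

The property `Good` of `a` (from the starting result `RandomOrbits`) says that for all even `m ∣ deg h`, and
the quaternion algebras `(G k, e)` of the Brauer group of `C a`:
* every orthogonal adelic zero-cycle of odd degree on `C a` has the values of a persistent class;
* if the zeros of `h` are one or two rational numbers, the existence of an orthogonal adelic zero-cycle
  of odd degree implies the existence of a rational point;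
* if there are no persistent classes, no adelic zero-cycle of odd degree is orthogonal.

So in the last two cases the Brauer-Manin obstruction is the only one to the existence of zero-cycles of
degree one on `C a`, and even to the existence of rational points.

**Theorem.** Let `v_n ≥ 1` be reals and let `L_n ≥ 1` be such that the sums of `L_n v_n ^ (-t)` converge for all
`t > 0` (`v_n = 3 ^ n` as in Mills's theorem, or `v_n = exp (√n)`, and `L_n = n ^ A`). For almost every
`α > 1` and ALL families `(b, g, h)`, for all but finitely many `n`: ALL integers `a ≠ 0` with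
`||a| - α ^ (v_n)| ≤ L_n` are `Good`. In particular this holds for `a = ± ⌊α ^ (3 ^ n)⌋`. For these `a` no
adelic zero-cycle of odd degree on the curves `y² = (z² + 51) (z² - 1)`,
`a x ^ m = (z² + 1) (z² - 17) (z² + 17)`, `m = 2, 6`, is orthogonal, although these curves have points over
`ℝ` and over all `ℚ_p`.

Here there is no exceptional set of indices `n` of positive or zero density, only finitely many exceptions.

Proof. Let `a = s t ^ 2` with `s` squarefree. The map `x ↦ t x ^ (m / 2)` maps `C a` to the curve `C s` with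
exponent `2`, with the same values of the `G k`. By the starting theorem `zc_main` (helper925) the squarefree
integers `s`, `|s| ≤ X`, which are not good for the exponent `2` are at most `C X (log X) ^ (-κ)`, and so the
integers `a` near `α ^ (v_n)` avoid them for almost all `α` (`Pool.Agent.R482.ST.mills_twists`, helper482).
-/

set_option autoImplicit false

namespace Pool.Agent.Results.MP_1ad228_nt.TwistsNearPowers

open Polynomial MeasureTheory Pool.Agent.R925.FD Pool.Agent.R925.ZC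
open Pool.Agent.Results.MP_1ad228_nt.ZeroCyclesOfTwistedCoverings
  (Admissible OddDegree OfPersistentClass NoPersistentClasses parity_of_odd)
open Pool.Agent.Results.MP_1ad228_nt.RandomOrbits (Good)

section

variable {K : Type} [Fintype K] [DecidableEq K] {m : ℕ} {b s t : ℤ} {g : K → ℤ[X]} {h : ℤ[X]}

/-- the image of a point -/
def ptMap (hm : Even m) {F : Type} [Field F] (P : Point m b (s * t ^ 2) g h F) :
    Point 2 b s g h F where
  z := P.z
  w := P.w
  x := (t : F) * P.x ^ (m / 2)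
  y := P.y
  ne := P.ne
  eq₁ := P.eq₁
  eq₂ := by
    rw [← P.eq₂, mul_pow, ← pow_mul, Nat.div_mul_cancel hm.two_dvd]
    push_cast
    ring

lemma value_ptMap (hm : Even m) {F : Type} [Field F] (P : Point m b (s * t ^ 2) g h F) (k : K) :
    value (ptMap hm P) k = value P k := rfl

/-- the image of a zero-cycle -/
def cyMap (hm : Even m) {F : Type} [Field F] (Z : Cycle m b (s * t ^ 2) g h F) :
    Cycle 2 b s g h F where
  r := Z.r
  E := Z.E
  fld := Z.fld
  alg := Z.alg
  fin := Z.fin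
  pt := fun i => ptMap hm (Z.pt i)
  c := Z.c

lemma cycVal_cyMap (hm : Even m) {F : Type} [Field F] (Z : Cycle m b (s * t ^ 2) g h F) (k : K) :
    cycVal (cyMap hm Z) k = cycVal Z k := rfl

/-- the image of an adelic zero-cycle -/
noncomputable def adMap (hm : Even m) (Z : AdelicCycle m b (s * t ^ 2) g h) : AdelicCycle 2 b s g h where
  re := cyMap hm Z.re
  pa := fun p => cyMap hm (Z.pa p)

end

/-- the squarefree `s` which are not good for the exponent `2` -/
def BadS {K : Type} [Fintype K] [DecidableEq K] (b : ℤ) (g : K → ℤ[X]) (h : ℤ[X]) (s : ℤ) : Prop :=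
  ∃ m, Even m ∧ m ∣ h.natDegree ∧
        ∃ (d : ℤ) (Z : AdelicCycle m b s g h), Z.Parity d ∧ Z.Orthogonal ∧
          ¬ ∃ n : K → ℤ, (∀ k, Squarefree (n k)) ∧
          IsClassZ d b (fun k => (n k : ℚ)) ∧ ZPersistent d g h (fun k => (n k : ℚ)) ∧
          (∀ k, IsSquare (cycVal Z.re k * (n k : ℝ))) ∧
          ∀ k (p : Nat.Primes), IsSquare (cycVal (Z.pa p) k * (n k : ℚ_[(p : ℕ)]))

lemma good_of_sf {r : ℕ} {b : ℤ} {g : Fin r → ℤ[X]} {h : ℤ[X]} (hA : Admissible b g h) {s t : ℤ}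
    (hs : ¬ BadS b g h s) : Good b g h (s * t ^ 2) := by
  classical
  have key : ∀ m : ℕ, Even m → m ∣ h.natDegree → ∀ Z : AdelicCycle m b (s * t ^ 2) g h,
      OddDegree Z → Z.Orthogonal → ∃ n : Fin r → ℤ, (∀ k, Squarefree (n k)) ∧
          IsClassZ 1 b (fun k => (n k : ℚ)) ∧ ZPersistent 1 g h (fun k => (n k : ℚ)) ∧
          (∀ k, IsSquare (cycVal Z.re k * (n k : ℝ))) ∧
          ∀ k (p : Nat.Primes), IsSquare (cycVal (Z.pa p) k * (n k : ℚ_[(p : ℕ)])) := by
    intro m hm hmh Z hd hZ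
    by_contra hcon
    exact hs ⟨2, even_two, hm.two_dvd.trans hmh, 1, adMap hm Z, parity_of_odd hd, hZ, hcon⟩
  refine ⟨?_, ?_, ?_⟩
  · intro m _ hm hmh Z hd hZ
    exact key m hm hmh Z hd hZ
  · rintro α₁ α₂ hz m hm0 hm hmh ⟨Z, hd, hZ⟩
    obtain ⟨n, _, hn2, hn3, _⟩ := key m hm hmh Z hd hZ
    obtain ⟨P, -⟩ := realize_odd (m := m) (a := s * t ^ 2) hm0 hA.b_ne hz
      (fun k => g_ne hA.h_deg hA.coprime_h ((hz α₁).2 (Or.inl rfl)) k)
      (fun k => g_ne hA.h_deg hA.coprime_h ((hz α₂).2 (Or.inr rfl)) k) odd_one _ hn2 hn3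
    exact ⟨P⟩
  · rintro hno m hm0 hm hmh ⟨Z, hd, hZ⟩
    obtain ⟨n, _, hn2, hn3, _⟩ := key m hm hmh Z hd hZ
    exact hno _ hn2 hn3

theorem result :
    (∀ v L : ℕ → ℝ, (∀ n, 1 ≤ v n) → (∀ n, 1 ≤ L n) →
      (∀ t : ℝ, 0 < t → Summable fun n => L n * (v n) ^ (-t)) →
      ∃ N : Set ℝ, volume N = 0 ∧ ∀ α : ℝ, 1 < α → α ∉ N →
        (∀ (r : ℕ) (b : ℤ) (g : Fin r → ℤ[X]) (h : ℤ[X]), Admissible b g h →
          ∃ n₀ : ℕ, ∀ n : ℕ, n₀ ≤ n → ∀ a : ℤ, a ≠ 0 → |(|a| : ℝ) - α ^ (v n)| ≤ L n →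
            Good b g h a) ∧
        ∃ n₀ : ℕ, ∀ n : ℕ, n₀ ≤ n → ∀ a : ℤ, a ≠ 0 → |(|a| : ℝ) - α ^ (v n)| ≤ L n →
          ∀ m : ℕ, 0 < m → Even m → m ∣ exh.natDegree →
            ¬ ∃ Z : AdelicCycle m 1 a exg exh, OddDegree Z ∧ Z.Orthogonal) ∧
    (∀ (m : ℕ) (a : ℤ), m ≠ 0 → Nonempty (Point m 1 a exg exh ℝ) ∧
      ∀ (p : ℕ) [Fact p.Prime], Nonempty (Point m 1 a exg exh ℚ_[p])) := by
  classical
  refine ⟨fun v L hv hL hs => ?_, RandomOrbits.result.2.2⟩
  have : Countable ℤ[X] := by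
    rw [← Cardinal.mk_le_aleph0_iff]
    exact Polynomial.cardinalMk_le_max.trans (by simp)
  have hone : ∀ D : (Σ r : ℕ, ℤ × (Fin r → ℤ[X]) × ℤ[X]), ∃ N : Set ℝ, volume N = 0 ∧
      (Admissible D.2.1 D.2.2.1 D.2.2.2 → ∀ α : ℝ, 1 < α → α ∉ N → ∃ n₀ : ℕ, ∀ n : ℕ, n₀ ≤ n →
        ∀ a : ℤ, a ≠ 0 → |(|a| : ℝ) - α ^ (v n)| ≤ L n → Good D.2.1 D.2.2.1 D.2.2.2 a) := by
    rintro ⟨r, b, g, h⟩
    by_cases hA : Admissible b g h
    · obtain ⟨κ, hκ, C, hC⟩ :=
        zc_main hA.b_ne hA.g_ne hA.h_deg hA.deg hA.coprime hA.coprime_h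
      obtain ⟨N, hN, hw⟩ := Pool.Agent.R482.ST.mills_twists (BadS b g h) hκ 3
        (fun X hX => hC X hX) hv hL (hs κ hκ)
      refine ⟨N, hN, fun _ α hα hαN => ?_⟩
      obtain ⟨n₀, hn⟩ := hw α hα hαN
      refine ⟨n₀, fun n hn1 a ha haw => ?_⟩
      obtain ⟨s, t, h4, h5, h6⟩ := Pool.Agent.R482.ST.sf_decomp a ha
      rw [h6]
      refine good_of_sf hA (hn n hn1 s t h4 h5 ?_)
      rw [h6] at haw
      push_cast at haw
      exact haw
    · exact ⟨∅, measure_empty, fun h => absurd h hA⟩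
  choose N hN h using hone
  refine ⟨⋃ D, N D, measure_iUnion_null hN, fun α hα hαN => ?_⟩
  rw [Set.mem_iUnion] at hαN
  push Not at hαN
  have hgen : ∀ (r : ℕ) (b : ℤ) (g : Fin r → ℤ[X]) (h : ℤ[X]), Admissible b g h →
          ∃ n₀ : ℕ, ∀ n : ℕ, n₀ ≤ n → ∀ a : ℤ, a ≠ 0 → |(|a| : ℝ) - α ^ (v n)| ≤ L n →
            Good b g h a :=
    fun r b g h' hA => h ⟨r, b, g, h'⟩ hA α hα (hαN ⟨r, b, g, h'⟩)
  refine ⟨hgen, ?_⟩
  obtain ⟨n₀, hn⟩ := hgen 2 1 exg exh RandomOrbits.adm_ex
  refine ⟨n₀, fun n hn1 a ha haw m hm0 hm hmh => ?_⟩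
  exact (hn n hn1 a ha haw).2.2 (fun δ hδ => ex_not_zpers δ (hδ.1 0) odd_one) m hm0 hm hmh

end Pool.Agent.Results.MP_1ad228_nt.TwistsNearPowers
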